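import Pool.Agent.H23.UVD.Targets

/-!
# Closure gives the inclusion of all powers in the universal schemes (row T_CLS)
-/

open TensorProduct Module MvPolynomial

namespace Pool.Agent.H10.UVD

open Pool.Agent.H23.UVD

universe u

variable {k : Type u} [Field k] {P : Type u} [CommRing P] [Algebra k P]

/-- The value of a product functional at `z` is a polynomial in the values of the factors. -/
theorem exists_poly {N d : ℕ} (s : Fin N → Fin d) (z : ⨂[k] _ : Fin N, P) :
    ∃ F : MvPolynomial (Fin d × P) k, ∀ T : Fin d → P →ₗ[k] k,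
      eval (fun q : Fin d × P => T q.1 q.2) F = pF (fun i => T (s i)) z := by
  induction z using PiTensorProduct.induction_on with
  | smul_tprod r x =>
    refine ⟨C r * ∏ i, X (s i, x i), fun T => ?_⟩
    rw [map_smul, pF_tprod, map_mul, eval_C, map_prod, smul_eq_mul]
    simp only [eval_X]
  | add x y hx hy =>
    obtain ⟨F, hF⟩ := hx
    obtain ⟨G, hG⟩ := hy
    exact ⟨F + G, fun T => by rw [map_add, map_add, hF, hG]⟩

/-- The value of a product functional is multilinear in the factors. -/
theorem pF_sum {N d : ℕ} (c : Fin N → Fin d → k) (T : Fin d → P →ₗ[k] k)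
    (z : ⨂[k] _ : Fin N, P) :
    pF (fun i => ∑ j, c i j • T j) z =
      ∑ s : Fin N → Fin d, (∏ i, c i (s i)) * pF (fun i => T (s i)) z := by
  classical
  induction z using PiTensorProduct.induction_on with
  | smul_tprod r x =>
    simp only [map_smul, pF_tprod, smul_eq_mul, LinearMap.sum_apply, LinearMap.smul_apply]
    rw [Finset.prod_univ_sum, Finset.mul_sum, Fintype.piFinset_univ]
    refine Finset.sum_congr rfl fun s _ => ?_
    rw [Finset.prod_mul_distrib]
    ring
  | add x y hx hy =>
    rw [map_add, hx, hy, ← Finset.sum_add_distrib]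
    refine Finset.sum_congr rfl fun s _ => ?_
    rw [map_add, mul_add]

theorem spans_mem {I : Ideal P} {d : ℕ} {T : Fin d → P →ₗ[k] k} (h : Spans k I T) {a : P}
    (ha : a ∈ I) (j : Fin d) : T j a = 0 := by
  have h1 : T j ∈ (I.restrictScalars k).dualAnnihilator := by
    rw [← h]
    exact Submodule.subset_span ⟨j, rfl⟩
  exact (Submodule.mem_dualAnnihilator _).1 h1 a ha

/-- Row T_CLS. -/
theorem pf_CLS (k : Type u) [Field k] : T_CLS k := by
  intro P _ _ _ V d I ⟨T, hT, hcl⟩ N z hz
  rw [mem_ker_famMap]
  intro f hf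
  have h1 : ∀ i, ∃ c : Fin d → k, ∑ j, c j • T j = f i := by
    intro i
    have h2 : f i ∈ Submodule.span k (Set.range T) := by
      rw [hT, Submodule.mem_dualAnnihilator]
      intro a ha
      exact hf i a ha
    exact (Submodule.mem_span_range_iff_exists_fun k).1 h2
  choose c hc using h1
  have h3 : f = fun i => ∑ j, c i j • T j := funext fun i => (hc i).symm
  rw [h3, pF_sum]
  refine Finset.sum_eq_zero fun s _ => ?_
  obtain ⟨F, hF⟩ := exists_poly (k := k) s z
  rw [← hF, hcl F, mul_zero]
  intro I' hI' T' hT'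
  rw [hF]
  have h4 : z ∈ RingHom.ker (famMap k (fun _ : Fin N => I')) := by
    rw [UI] at hz
    exact (Submodule.mem_iInf _).1 ((Submodule.mem_iInf _).1 hz I') hI'
  exact mem_ker_famMap.1 h4 _ fun i a ha => spans_mem hT' ha (s i)

end Pool.Agent.H10.UVD
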